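import Pool.Agent.Lib.MP_4318ff_ag.T3.H1

/-!
# MP_4318ff_ag, part T3: `H1Vanishes` for three lines (helper11)
-/

set_option autoImplicit false

namespace Pool.Agent.Lib.MP_4318ff_ag

open scoped LinearAlgebra.Projectivization

theorem t3_third (i j : Fin 3) (_hij : i ≠ j) : ∃ h : Fin 3, i ≠ h ∧ j ≠ h := by
  revert i j; decide

theorem t3_other (j : Fin 3) : ∃ i h : Fin 3, i ≠ j ∧ i ≠ h ∧ j ≠ h := by
  revert j; decide

theorem t3_cases (i j h a : Fin 3) (hij : i ≠ j) (hih : i ≠ h) (hjh : j ≠ h) : a = i ∨ a = j ∨ a = h := by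
  revert i j h a; decide

theorem t3_sign (h a : Fin 3) : 0 ≤ t3e h (t3v a) ∨ 0 ≤ t3e h (-t3v a) := by
  revert h a; decide

section

variable {k : Type} [Field k] {C : Config k 3} {n : ℕ} {K : Type} [Field K] [Algebra (F k) K]
variable [Algebra k K] [IsScalarTower k (F k) K] {w : Fin 3 → K}

/-- The three charts. -/
theorem t3_three [CharZero k] [IsAlgClosed k] (hn : 0 < n) (hK : IsEtaleCover C n K) (hw : T3W C n K w)
    (D : Fin 3 → Fin 3 → Derivation k K K)
    (hD : ∀ i j h : Fin 3, i ≠ j → i ≠ h → j ≠ h → ∀ x ∈ T3S k w (t3H h), D i j x ∈ T3S k w (t3H h))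
    (hc : ∀ i j h, D i j + D j h = D i h) :
    ∃ E : Fin 3 → Derivation k K K, (∀ i, ∀ x ∈ ic K (Rb (C.ℓ i)), E i x ∈ ic K (Rb (C.ℓ i))) ∧
      ∀ i j, D i j = E j - E i := by
  classical
  have hfin := hK.finite
  have h1 := hw.ne 1
  have h2 := hw.ne 2
  have hAI : AlgebraicIndependent k ![w 1, w 2] := by
    have h := t3_AI hn hw (i := 0) (j := 1) (h := 2) (by decide) (by decide) (by decide)
    rwa [hw.zero, div_one, div_one] at h
  have hli := t3mon_li h1 h2 hAI
  have hPex : ∀ i : Fin 3, ∃ P : K →ₗ[k] K, ∀ m, P (t3mon w m) = if m ∈ t3A i then t3mon w m else 0 :=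
    fun i => t3_linmap hli _
  choose P hP using hPex
  have hself : ∀ j, D j j = 0 := by
    intro j
    have := hc j j j
    exact add_eq_left.1 this
  -- the projections add up to the identity
  have hsum : ∀ x ∈ T3S k w Set.univ, ∑ i, P i x = x := by
    intro x hx
    refine t3S_ind (p := fun x => ∑ i, P i x = x) ?_ ?_ ?_ ?_ hx
    · simp
    · intro x y hx hy
      simp only [map_add, Finset.sum_add_distrib, hx, hy]
    · intro c x hx
      simp only [map_smul, ← Finset.smul_sum, hx]
    · intro m _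
      simp only [hP]
      have hs := t3e_sum m
      rw [Fin.sum_univ_three]
      by_cases c0 : 0 ≤ t3e 0 m
      · have a0 : m ∈ t3A 0 := ⟨c0, fun i hi => absurd hi (by simp)⟩
        have a1 : m ∉ t3A 1 := fun h => absurd (h.2 0 (by decide)) (by omega)
        have a2 : m ∉ t3A 2 := fun h => absurd (h.2 0 (by decide)) (by omega)
        rw [if_pos a0, if_neg a1, if_neg a2, add_zero, add_zero]
      · have a0 : m ∉ t3A 0 := fun h => c0 h.1
        by_cases c1 : 0 ≤ t3e 1 m
        · have a1 : m ∈ t3A 1 := by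
            refine ⟨c1, fun i hi => ?_⟩
            have : i = 0 := by revert hi; revert i; decide
            rw [this]; omega
          have a2 : m ∉ t3A 2 := fun h => absurd (h.2 1 (by decide)) (by omega)
          rw [if_neg a0, if_pos a1, if_neg a2, add_zero, zero_add]
        · have a1 : m ∉ t3A 1 := fun h => c1 h.1
          have a2 : m ∈ t3A 2 := by
            refine ⟨by omega, fun i hi => ?_⟩
            have : i = 0 ∨ i = 1 := by revert hi; revert i; decide
            rcases this with rfl | rfl <;> omega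
          rw [if_neg a0, if_neg a1, if_pos a2, zero_add, zero_add]
  -- logarithmic coefficients
  let lam : Fin 3 → Fin 3 → Fin 3 → K := fun i j a => D i j (w a) / w a
  have hlamT : ∀ i j : Fin 3, ∀ a : Fin 3, (a = 1 ∨ a = 2) → lam i j a ∈ T3S k w Set.univ := by
    intro i j a ha
    by_cases hij : i = j
    · subst hij
      change D i i (w a) / w a ∈ _
      rw [hself i]
      simp
    · obtain ⟨h, hih, hjh⟩ := t3_third i j hij
      -- one of `± v a` has a nonnegative exponent at `h`
      have key : ∀ x : ℤ × ℤ, x ∈ t3H h → D i j (t3mon w x) / t3mon w x ∈ T3S k w Set.univ := by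
        intro x hx
        have h3 := hD i j h hij hih hjh _ (t3S_mon (k := k) (w := w) hx)
        have h4 : D i j (t3mon w x) / t3mon w x = D i j (t3mon w x) * t3mon w (-x) := by
          have h5 : t3mon w (-x) * t3mon w x = 1 := by
            rw [← t3mon_add h1 h2, neg_add_cancel, t3mon_zero]
          rw [div_eq_iff (t3mon_ne h1 h2 x), mul_assoc, h5, mul_one]
        rw [h4]
        exact t3S_mulmon h1 h2 (fun _ _ => Set.mem_univ _) h3
      rcases t3_sign h a with h3 | h3
      · have := key (t3v a) h3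
        rwa [t3mon_v hw] at this
      · have h4 := key (-t3v a) h3
        have h5 : t3mon w (-t3v a) = (w a)⁻¹ := by
          have h6 : t3mon w (-t3v a) * t3mon w (t3v a) = 1 := by
            rw [← t3mon_add h1 h2, neg_add_cancel, t3mon_zero]
          rw [t3mon_v hw] at h6
          exact eq_inv_of_mul_eq_one_left h6
        rw [h5, (D i j).leibniz_inv, smul_eq_mul] at h4
        have h7 : lam i j a = - (-(w a)⁻¹ ^ 2 * D i j (w a) / (w a)⁻¹) := by
          change D i j (w a) / w a = _
          have := hw.ne a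
          field_simp
        rw [h7]
        exact neg_mem h4
  have hEx : ∀ j : Fin 3, ∃ E : Derivation k K K, E (w 1) = w 1 * ∑ i, P i (lam i j 1) ∧
      E (w 2) = w 2 * ∑ i, P i (lam i j 2) := fun j => t3_exD hn hw _ _
  choose E hE1 hE2 using hEx
  have hEmon : ∀ (j : Fin 3) (m : ℤ × ℤ), E j (t3mon w m) =
      ∑ i, P i ((m.1 : K) * lam i j 1 + (m.2 : K) * lam i j 2) * t3mon w m := by
    intro j m
    rw [t3_Dmon hw, hE1, hE2, mul_div_cancel_left₀ _ h1, mul_div_cancel_left₀ _ h2, ← Finset.sum_mul]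
    congr 1
    have h3 : ∀ (t : ℤ) (x : K), (t : K) * x = (t : k) • x := by
      intro t x
      rw [Algebra.smul_def, map_intCast]
    simp only [h3, map_add, map_smul, Finset.sum_add_distrib, Finset.smul_sum]
  have hDmon : ∀ (i j : Fin 3) (m : ℤ × ℤ), D i j (t3mon w m) =
      ((m.1 : K) * lam i j 1 + (m.2 : K) * lam i j 2) * t3mon w m := fun i j m => t3_Dmon hw (D i j) m
  -- one summand
  have hone : ∀ i j h : Fin 3, i ≠ j → i ≠ h → j ≠ h → ∀ m ∈ t3H i ∩ t3H h,
      P i ((m.1 : K) * lam i j 1 + (m.2 : K) * lam i j 2) * t3mon w m ∈ T3S k w (t3H i ∩ t3H h) := by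
    intro i j h hij hih hjh m hm
    have h3 : ((m.1 : K) * lam i j 1 + (m.2 : K) * lam i j 2) * t3mon w m ∈ T3S k w (t3H h) := by
      rw [← hDmon]
      exact hD i j h hij hih hjh _ (t3S_mon hm.2)
    obtain ⟨h4, h5⟩ := t3S_projmul h1 h2 (hP i) h3
    refine t3S_inter hli ?_ h4
    exact t3S_mulmon h1 h2 (fun l hl => t3H_add (t3A_sub i hl) hm.1) h5
  refine ⟨E, ?_, ?_⟩
  · intro j x hx
    obtain ⟨i, h, hij, hih, hjh⟩ := t3_other j
    rw [t3_ring hn hK hw hij.symm hjh hih] at hx ⊢
    refine t3S_ind (p := fun x => E j x ∈ T3S k w (t3H i ∩ t3H h)) ?_ ?_ ?_ ?_ hx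
    · rw [map_zero]; exact zero_mem _
    · intro x y hx hy; rw [map_add]; exact add_mem hx hy
    · intro c x hx; rw [(E j).map_smul]; exact Submodule.smul_mem _ c hx
    · intro m hm
      rw [hEmon]
      refine Submodule.sum_mem _ fun a _ => ?_
      rcases t3_cases i j h a hij hih hjh with rfl | rfl | rfl
      · exact hone _ j h hij hih hjh m hm
      · have h3 : ∀ b, lam a a b = 0 := by
          intro b
          change D a a (w b) / w b = 0
          rw [hself a]
          simp
        rw [h3, h3, mul_zero, mul_zero, add_zero, map_zero, zero_mul]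
        exact zero_mem _
      · rw [Set.inter_comm]
        rw [Set.inter_comm] at hm
        exact hone _ j i hjh.symm hih.symm hij.symm m hm
  · intro i j
    have h3 : ∀ b, (b = 1 ∨ b = 2) → ∑ a, P a (lam a j b) - ∑ a, P a (lam a i b) = lam i j b := by
      intro b hb
      rw [← Finset.sum_sub_distrib]
      have h4 : ∀ a, P a (lam a j b) - P a (lam a i b) = P a (lam i j b) := by
        intro a
        rw [← map_sub]
        congr 1
        change D a j (w b) / w b - D a i (w b) / w b = D i j (w b) / w b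
        rw [← hc a i j, Derivation.add_apply]
        ring
      simp only [h4]
      exact hsum _ (hlamT i j b hb)
    refine t3_ext hw _ _ ?_ ?_
    · rw [Derivation.sub_apply, hE1, hE1, ← mul_sub, h3 1 (Or.inl rfl)]
      change _ = w 1 * (D i j (w 1) / w 1)
      rw [mul_div_cancel₀ _ h1]
    · rw [Derivation.sub_apply, hE2, hE2, ← mul_sub, h3 2 (Or.inr rfl)]
      change _ = w 2 * (D i j (w 2) / w 2)
      rw [mul_div_cancel₀ _ h2]

/-- **Three lines**: the first cohomology of the tangent sheaf vanishes for all etale coverings. -/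
theorem t3_H1 [CharZero k] [IsAlgClosed k] (hn : 0 < n) (hK : IsEtaleCover C n K) : H1Vanishes C K := by
  intro D hD hc
  have hfin := hK.finite
  obtain ⟨w, hw⟩ := t3_exW hn hK.roots
  let c : Fin 3 → Chart C := fun i => t3_chart C (C.ℓ i) (t3_ne C i)
  have hcA : ∀ i, (c i).A K = ic K (Rb (C.ℓ i)) := fun i => t3_A C (c i) K
  obtain ⟨E, hE, hDE⟩ := t3_three hn hK hw (fun i j => D (c i) (c j))
    (fun i j h hij hih hjh x hx => by
      have h1 := (t3_sup hn hK hw hij hih hjh x).2 hx
      rw [← hcA i, ← hcA j] at h1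
      have h2 := hD (c i) (c j) x h1
      rw [hcA i, hcA j] at h2
      exact (t3_sup hn hK hw hij hih hjh _).1 h2)
    (fun i j h => hc _ _ _)
  refine ⟨fun u => E 0 + D (c 0) u, ?_, ?_⟩
  · intro u y hy
    have hEi : ∀ i, E 0 + D (c 0) u = E i + D (c i) u := by
      intro i
      rw [← hc (c 0) (c i) u]
      have h1 : D (c 0) (c i) = E i - E 0 := hDE 0 i
      rw [h1]
      abel
    change (E 0 + D (c 0) u) y ∈ ic K u.R
    refine all_hartK k 3 C K u _ fun O hO huO => ?_
    have hOc : IsCurve O := by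
      rcases hO with h | ⟨P, hP, -⟩
      · exact h
      · rw [t3_M C] at hP
        exact absurd hP (Set.notMem_empty P)
    obtain ⟨i, hi⟩ : ∃ i, Rb (C.ℓ i) ≤ O := by
      rcases t3_two C (i := 0) (j := 1) (by decide) hOc with h | h
      · exact ⟨0, h⟩
      · exact ⟨1, h⟩
    rw [hEi i, Derivation.add_apply]
    have huA : u.A K ≤ ic K O := ic_mono K huO
    have hiA : (c i).A K ≤ ic K O := by rw [hcA i]; exact ic_mono K hi
    refine add_mem ?_ ((sup_le hiA huA) (hD (c i) u y ((le_sup_right : u.A K ≤ _) hy)))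
    -- `E i y` is regular at `O`
    have hy' : y ∈ ic K (Rb u.b) := by rwa [t3_A] at hy
    obtain ⟨m, hm⟩ := overlap_denom (K := K) (t3_mem_Rb (C.ℓ i) u.b) (t3_denom u.b_ne (t3_ne C i)) hy'
    have hli := ev_ne_zero (t3_ne C i)
    have hub := ev_ne_zero u.b_ne
    set f : K := algebraMap (F k) K (ev u.b / ev (C.ℓ i)) with hf
    have hf0 : f ≠ 0 := by
      rw [hf, Ne, map_eq_zero]
      exact div_ne_zero hub hli
    have hfO : f⁻¹ ∈ ic K O := by
      rw [hf, ← map_inv₀, inv_div]
      have h1 : ev (C.ℓ i) / ev u.b ∈ u.R := by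
        rw [t3_R]
        exact t3_mem_Rb _ _
      exact algebraMap_mem_ic K (huO h1)
    have hfi : f ∈ ic K (Rb (C.ℓ i)) := algebraMap_mem_ic K (t3_mem_Rb _ _)
    rw [map_pow] at hm
    have h3 : y = f⁻¹ ^ m * (f ^ m * y) := by
      rw [← mul_assoc, ← mul_pow, inv_mul_cancel₀ hf0, one_pow, one_mul]
    have hiO : ic K (Rb (C.ℓ i)) ≤ ic K O := ic_mono K hi
    have h4 : E i f⁻¹ ∈ ic K O := by
      rw [(E i).leibniz_inv, smul_eq_mul]
      exact mul_mem (neg_mem (pow_mem hfO 2)) (hiO (hE i f hfi))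
    rw [h3, (E i).leibniz, (E i).leibniz_pow]
    simp only [smul_eq_mul, nsmul_eq_mul]
    exact add_mem (mul_mem (pow_mem hfO m) (hiO (hE i _ hm)))
      (mul_mem (hiO hm) (mul_mem (natCast_mem _ m) (mul_mem (pow_mem hfO _) h4)))
  · intro u v
    change D u v = (E 0 + D (c 0) v) - (E 0 + D (c 0) u)
    rw [← hc (c 0) u v]
    abel

end

end Pool.Agent.Lib.MP_4318ff_ag
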