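import Pool.Agent.Lib.MP_4318ff_ag.All.Main
import Pool.Agent.Lib.MP_4318ff_ag.L.ConstK
import Pool.Agent.Lib.MP_4318ff_ag.E.Et

/-!
# MP_4318ff_ag, part T3 (three lines, the Hirzebruch-Kummer covering is the plane): basic facts (helper11)
-/

set_option autoImplicit false

namespace Pool.Agent.Lib.MP_4318ff_ag

open scoped LinearAlgebra.Projectivization

/-- If the `n`-th powers are algebraically independent, so are the elements. -/
theorem t3_algind {k : Type} [Field k] {A : Type} [CommRing A] [IsDomain A] [Algebra k A] (x : Fin 2 → A) (n : ℕ)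
    (hn : 0 < n) (h : AlgebraicIndependent k (fun i => x i ^ n)) : AlgebraicIndependent k x := by
  rw [algebraicIndependent_iff_injective_aeval] at h ⊢
  set I : Ideal (MvPolynomial (Fin 2) k) := RingHom.ker (MvPolynomial.aeval x : MvPolynomial (Fin 2) k →ₐ[k] A) with hI
  let B : Subalgebra k (MvPolynomial (Fin 2) k) :=
    (MvPolynomial.expand n : MvPolynomial (Fin 2) k →ₐ[k] MvPolynomial (Fin 2) k).range
  have hint : Algebra.IsIntegral B (MvPolynomial (Fin 2) k) := by
    constructor
    intro p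
    induction p using MvPolynomial.induction_on with
    | C a =>
      exact isIntegral_algebraMap (R := B) (A := MvPolynomial (Fin 2) k) (x := algebraMap k B a)
    | add p q hp hq => exact hp.add hq
    | mul_X p i hp =>
      refine hp.mul ?_
      refine IsIntegral.of_pow hn ?_
      exact isIntegral_algebraMap (R := B) (A := MvPolynomial (Fin 2) k)
        (x := ⟨MvPolynomial.X i ^ n, ⟨MvPolynomial.X i, MvPolynomial.expand_X n i⟩⟩)
  have hIb : I = ⊥ := by
    refine Ideal.eq_bot_of_comap_eq_bot (R := B) ?_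
    rw [eq_bot_iff]
    rintro ⟨p, q, rfl⟩ hp
    have h1 : MvPolynomial.aeval x (MvPolynomial.expand n q) = 0 := hp
    rw [MvPolynomial.aeval_expand] at h1
    have h2 : q = 0 := by
      apply h
      rw [map_zero]
      exact h1
    rw [Ideal.mem_bot]
    apply Subtype.ext
    change MvPolynomial.expand n q = 0
    rw [h2, map_zero]
  have := (RingHom.injective_iff_ker_eq_bot
    ((MvPolynomial.aeval x : MvPolynomial (Fin 2) k →ₐ[k] A) : MvPolynomial (Fin 2) k →+* A)).2 hIb
  exact this

section config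

variable {k : Type} [Field k] (C : Config k 3)

theorem t3_indep : LinearIndependent k C.ℓ := by
  apply linearIndependent_of_top_le_span_of_card_eq_finrank
  · rw [C.span]
  · simp

theorem t3_indep3 {i j h : Fin 3} (hij : i ≠ j) (hih : i ≠ h) (hjh : j ≠ h) :
    LinearIndependent k ![C.ℓ i, C.ℓ j, C.ℓ h] := by
  have h1 : ![C.ℓ i, C.ℓ j, C.ℓ h] = C.ℓ ∘ ![i, j, h] := by
    ext a
    fin_cases a <;> rfl
  rw [h1]
  refine (t3_indep C).comp _ ?_
  intro a b hab
  fin_cases a <;> fin_cases b <;> simp_all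

theorem t3_M : C.M = ∅ := by
  rw [Set.eq_empty_iff_forall_notMem]
  intro P hP
  have h1 : C.through P = Set.univ := by
    refine Set.eq_of_subset_of_ncard_le (Set.subset_univ _) ?_
    have h3 : 3 ≤ (C.through P).ncard := hP
    rw [Set.ncard_univ]
    simpa using h3
  have h2 : ∀ v : Fin 3 → k, v ⬝ᵥ P.rep = 0 := by
    intro v
    have hv : v ∈ Submodule.span k (Set.range C.ℓ) := by rw [C.span]; trivial
    induction hv using Submodule.span_induction with
    | mem x hx =>
      obtain ⟨i, rfl⟩ := hx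
      have : i ∈ C.through P := by rw [h1]; trivial
      exact this
    | zero => exact zero_dotProduct _
    | add x y _ _ hx hy => rw [add_dotProduct, hx, hy, add_zero]
    | smul t x _ hx => rw [smul_dotProduct, hx, smul_zero]
  refine P.rep_nonzero ?_
  ext i
  have := h2 (Pi.single i 1)
  rwa [single_dotProduct, one_mul] at this

theorem t3_ne (i : Fin 3) : C.ℓ i ≠ 0 := (t3_indep C).ne_zero i

/-- The chart `b ≠ 0` of the plane. -/
def t3_chart (b : Fin 3 → k) (hb : b ≠ 0) : Chart C where
  b := b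
  b_ne := hb
  a := 0
  a_ne := fun P hP => absurd hP (by rw [t3_M C]; exact Set.notMem_empty P)
  a_through := fun P hP => absurd hP (by rw [t3_M C]; exact Set.notMem_empty P)

/-- The coordinate ring of `b ≠ 0`. -/
noncomputable def Rb (b : Fin 3 → k) : Subalgebra k (F k) := Algebra.adjoin k {z | ∃ c : Fin 3 → k, z = ev c / ev b}

theorem t3_R (u : Chart C) : u.R = Rb u.b := by
  unfold Chart.R Rb
  congr 1
  ext z
  constructor
  · rintro (h | ⟨P, hP, -⟩)
    · exact h
    · rw [t3_M C] at hP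
      exact absurd hP (Set.notMem_empty P)
  · exact fun h => Or.inl h

theorem t3_A (u : Chart C) (K : Type) [Field K] [Algebra (F k) K] : u.A K = ic K (Rb u.b) := by
  unfold Chart.A
  rw [t3_R]

end config

section Rb

variable {k : Type} [Field k]

theorem t3_mem_Rb (b c : Fin 3 → k) : ev c / ev b ∈ Rb b := Algebra.subset_adjoin ⟨c, rfl⟩

theorem t3_denom {b b' : Fin 3 → k} (hb : b ≠ 0) (hb' : b' ≠ 0) :
    ∀ y ∈ Rb b, ∃ m : ℕ, (ev b / ev b') ^ m * y ∈ Rb b' := by
  intro y hy
  refine overlap_adjoin (t3_mem_Rb b' b) ?_ hy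
  rintro y ⟨c, rfl⟩
  refine ⟨1, ?_⟩
  have h1 : (ev b / ev b') ^ 1 * (ev c / ev b) = ev c / ev b' := by
    have := ev_ne_zero hb
    have := ev_ne_zero hb'
    field_simp
  rw [h1]
  exact t3_mem_Rb b' c

theorem t3_Rb_le {O : Subalgebra k (F k)} {b : Fin 3 → k} (h : UnitForm O b) : Rb b ≤ O := by
  refine Algebra.adjoin_le ?_
  rintro z ⟨c, rfl⟩
  exact h.2 c

/-- Every curve lies in one of the charts `ℓ i ≠ 0`, `ℓ j ≠ 0`. -/
theorem t3_two (C : Config k 3) {i j : Fin 3} (hij : i ≠ j) {O : Subalgebra k (F k)} (hO : IsCurve O) :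
    Rb (C.ℓ i) ≤ O ∨ Rb (C.ℓ j) ≤ O := by
  obtain ⟨-, -, h3, -⟩ := all_curve k O hO
  rcases h3 (C.ℓ i) (t3_ne C i) with h | h
  · exact Or.inl (t3_Rb_le h)
  · exact Or.inr (t3_Rb_le (h (C.ℓ j) (C.indep i j hij)).1)

end Rb

end Pool.Agent.Lib.MP_4318ff_ag
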