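import Pool.Agent.Lib.MP_4318ff_ag.T3.Mon

/-!
# MP_4318ff_ag, part T3: the first cohomology of the tangent sheaf of the plane vanishes (helper11)
-/

set_option autoImplicit false

namespace Pool.Agent.Lib.MP_4318ff_ag

open scoped LinearAlgebra.Projectivization

/-- The exponents of `w 0`, `w 1`, `w 2` (sum zero) of a monomial. -/
def t3e (j : Fin 3) (m : ℤ × ℤ) : ℤ := ![-m.1 - m.2, m.1, m.2] j

/-- The exponent of `w j`. -/
def t3v (j : Fin 3) : ℤ × ℤ := ![(0, 0), (1, 0), (0, 1)] j

/-- Nonnegative exponent of `w j`. -/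
def t3H (j : Fin 3) : Set (ℤ × ℤ) := {m | 0 ≤ t3e j m}

/-- `j` is the first index with a nonnegative exponent. -/
def t3A (j : Fin 3) : Set (ℤ × ℤ) := {m | 0 ≤ t3e j m ∧ ∀ i < j, t3e i m < 0}

theorem t3e_add (j : Fin 3) (m m' : ℤ × ℤ) : t3e j (m + m') = t3e j m + t3e j m' := by
  fin_cases j <;> (simp [t3e]; try ring)

theorem t3e_zsmul (j : Fin 3) (t : ℤ) (m : ℤ × ℤ) : t3e j (t • m) = t * t3e j m := by
  fin_cases j <;> (simp [t3e]; try ring)

theorem t3e_v (a i j : Fin 3) : t3e a (t3v j - t3v i) = (if a = j then 1 else 0) - (if a = i then 1 else 0) := by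
  revert a i j
  decide

theorem t3e_sum (m : ℤ × ℤ) : t3e 0 m + t3e 1 m + t3e 2 m = 0 := by
  simp [t3e]
  ring

theorem t3_decomp {i j h : Fin 3} (hij : i ≠ j) (hih : i ≠ h) (hjh : j ≠ h) (m : ℤ × ℤ) :
    m = t3e j m • (t3v j - t3v i) + t3e h m • (t3v h - t3v i) := by
  obtain ⟨a, b⟩ := m
  fin_cases i <;> fin_cases j <;> fin_cases h <;> simp_all [t3e, t3v]

theorem t3H_add {j : Fin 3} {m m' : ℤ × ℤ} (h : m ∈ t3H j) (h' : m' ∈ t3H j) : m + m' ∈ t3H j := by
  change 0 ≤ t3e j (m + m')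
  rw [t3e_add]
  exact add_nonneg h h'

theorem t3A_sub (j : Fin 3) : t3A j ⊆ t3H j := fun _ h => h.1

section

variable {k : Type} [Field k] {C : Config k 3} {n : ℕ} {K : Type} [Field K] [Algebra (F k) K]
variable [Algebra k K] [IsScalarTower k (F k) K] {w : Fin 3 → K}

omit [Algebra k K] [IsScalarTower k (F k) K] in
theorem t3mon_v (hw : T3W C n K w) (i : Fin 3) : t3mon w (t3v i) = w i := by
  fin_cases i
  · change w 1 ^ (0 : ℤ) * w 2 ^ (0 : ℤ) = w 0
    rw [hw.zero, zpow_zero, zpow_zero, one_mul]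
  · change w 1 ^ (1 : ℤ) * w 2 ^ (0 : ℤ) = w 1
    rw [zpow_one, zpow_zero, mul_one]
  · change w 1 ^ (0 : ℤ) * w 2 ^ (1 : ℤ) = w 2
    rw [zpow_one, zpow_zero, one_mul]

omit [Algebra k K] [IsScalarTower k (F k) K] in
theorem t3mon_sub (hw : T3W C n K w) (i j : Fin 3) : t3mon w (t3v j - t3v i) = w j / w i := by
  have h := t3mon_add (hw.ne 1) (hw.ne 2) (t3v j - t3v i) (t3v i)
  rw [sub_add_cancel, t3mon_v hw, t3mon_v hw] at h
  rw [h, mul_div_cancel_right₀ _ (hw.ne i)]

omit [Algebra k K] [IsScalarTower k (F k) K] in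
theorem t3mon_nsmul (hw : T3W C n K w) (x : ℤ × ℤ) (a : ℕ) : t3mon w (a • x) = t3mon w x ^ a := by
  induction a with
  | zero => rw [zero_smul, pow_zero]; exact t3mon_zero
  | succ a ih => rw [succ_nsmul, t3mon_add (hw.ne 1) (hw.ne 2), ih, pow_succ]

/-- The ring of the chart `ℓ i ≠ 0` in terms of monomials. -/
theorem t3_ring [CharZero k] [IsAlgClosed k] (hn : 0 < n) (hK : IsEtaleCover C n K) (hw : T3W C n K w)
    {i j h : Fin 3} (hij : i ≠ j) (hih : i ≠ h) (hjh : j ≠ h) (y : K) :
    y ∈ ic K (Rb (C.ℓ i)) ↔ y ∈ T3S k w (t3H j ∩ t3H h) := by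
  constructor
  · intro hy
    obtain ⟨ψ, hX0, hX1, -, -, hsur⟩ := t3_psi hn hw hij hih hjh
    obtain ⟨P, rfl⟩ := hsur y hy (t3_top hn hK hw y)
    clear hy
    have hv : ∀ a, a = j ∨ a = h → t3v a - t3v i ∈ t3H j ∩ t3H h := by
      rintro a ha
      constructor
      · change 0 ≤ t3e j (t3v a - t3v i)
        rw [t3e_v]
        split <;> simp [hij.symm]
      · change 0 ≤ t3e h (t3v a - t3v i)
        rw [t3e_v]
        split <;> simp [hih.symm]
    induction P using MvPolynomial.induction_on with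
    | C a =>
      have h3 : ψ (algebraMap (MvPolynomial (Fin 2) k) (F k) (MvPolynomial.C a)) = a • (1 : K) := by
        have h4 : algebraMap (MvPolynomial (Fin 2) k) (F k) (MvPolynomial.C a) = algebraMap k (F k) a :=
          (IsScalarTower.algebraMap_apply k (MvPolynomial (Fin 2) k) (F k) a).symm
        rw [h4, ← Algebra.algebraMap_eq_smul_one]
        exact ψ.commutes a
      rw [h3, ← t3mon_zero (w := w)]
      refine Submodule.smul_mem _ a (t3S_mon ⟨?_, ?_⟩)
      · change 0 ≤ t3e j 0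
        fin_cases j <;> simp [t3e]
      · change 0 ≤ t3e h 0
        fin_cases h <;> simp [t3e]
    | add p q hp hq => rw [map_add, map_add]; exact add_mem hp hq
    | mul_X p a hp =>
      rw [map_mul, map_mul]
      have h5 : ∀ b, b = j ∨ b = h → ψ (algebraMap (MvPolynomial (Fin 2) k) (F k) p) * (w b / w i) ∈
          T3S k w (t3H j ∩ t3H h) := by
        intro b hb
        rw [← t3mon_sub hw]
        refine t3S_mulmon (hw.ne 1) (hw.ne 2) ?_ hp
        intro l hl
        exact ⟨t3H_add hl.1 (hv b hb).1, t3H_add hl.2 (hv b hb).2⟩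
      fin_cases a
      · change _ * ψ (algebraMap (MvPolynomial (Fin 2) k) (F k) (MvPolynomial.X 0)) ∈ _
        rw [hX0]
        exact h5 j (Or.inl rfl)
      · change _ * ψ (algebraMap (MvPolynomial (Fin 2) k) (F k) (MvPolynomial.X 1)) ∈ _
        rw [hX1]
        exact h5 h (Or.inr rfl)
  · intro hy
    have hk : ∀ c : k, algebraMap k K c ∈ ic K (Rb (C.ℓ i)) := by
      intro c
      rw [IsScalarTower.algebraMap_apply k (F k) K]
      exact algebraMap_mem_ic K (Subalgebra.algebraMap_mem _ c)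
    refine t3S_ind (p := fun y => y ∈ ic K (Rb (C.ℓ i))) (zero_mem _) (fun x y hx hy => add_mem hx hy) ?_ ?_ hy
    · intro c x hx
      rw [Algebra.smul_def]
      exact mul_mem (hk c) hx
    · rintro m ⟨hj, hh⟩
      obtain ⟨a, ha⟩ : ∃ a : ℕ, (a : ℤ) = t3e j m := ⟨(t3e j m).toNat, Int.toNat_of_nonneg hj⟩
      obtain ⟨b, hb⟩ : ∃ b : ℕ, (b : ℤ) = t3e h m := ⟨(t3e h m).toNat, Int.toNat_of_nonneg hh⟩
      rw [t3_decomp hij hih hjh m, ← ha, ← hb, natCast_zsmul, natCast_zsmul, t3mon_add (hw.ne 1) (hw.ne 2),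
        t3mon_nsmul hw, t3mon_nsmul hw, t3mon_sub hw, t3mon_sub hw]
      exact mul_mem (pow_mem (t3_wmem hn hw i j) a) (pow_mem (t3_wmem hn hw i h) b)

/-- The ring of the intersection of two of the three charts. -/
theorem t3_sup [CharZero k] [IsAlgClosed k] (hn : 0 < n) (hK : IsEtaleCover C n K) (hw : T3W C n K w)
    {i j h : Fin 3} (hij : i ≠ j) (hih : i ≠ h) (hjh : j ≠ h) (y : K) :
    y ∈ (ic K (Rb (C.ℓ i)) ⊔ ic K (Rb (C.ℓ j)) : Subring K) ↔ y ∈ T3S k w (t3H h) := by
  constructor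
  · intro hy
    let T : Subring K :=
      { carrier := {y | y ∈ T3S k w (t3H h)}
        mul_mem' := fun ha hb => t3S_mul (hw.ne 1) (hw.ne 2) (fun l hl m hm => t3H_add hl hm) ha hb
        one_mem' := by
          change (1 : K) ∈ T3S k w (t3H h)
          rw [← t3mon_zero (w := w)]
          refine t3S_mon ?_
          change 0 ≤ t3e h 0
          fin_cases h <;> simp [t3e]
        add_mem' := fun {x y} ha hb => Submodule.add_mem (T3S k w (t3H h)) ha hb
        zero_mem' := Submodule.zero_mem (T3S k w (t3H h))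
        neg_mem' := fun {x} ha => Submodule.neg_mem (T3S k w (t3H h)) ha }
    have h1 : ic K (Rb (C.ℓ i)) ≤ T := fun x hx =>
      t3S_mono Set.inter_subset_right ((t3_ring hn hK hw hij hih hjh x).1 hx)
    have h2 : ic K (Rb (C.ℓ j)) ≤ T := fun x hx =>
      t3S_mono Set.inter_subset_right ((t3_ring hn hK hw hij.symm hjh hih x).1 hx)
    exact (sup_le h1 h2) hy
  · intro hy
    have g1 : ic K (Rb (C.ℓ i)) ≤ ic K (Rb (C.ℓ i)) ⊔ ic K (Rb (C.ℓ j)) := le_sup_left
    have g2 : ic K (Rb (C.ℓ j)) ≤ ic K (Rb (C.ℓ i)) ⊔ ic K (Rb (C.ℓ j)) := le_sup_right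
    have hk : ∀ c : k, algebraMap k K c ∈ ic K (Rb (C.ℓ i)) := by
      intro c
      rw [IsScalarTower.algebraMap_apply k (F k) K]
      exact algebraMap_mem_ic K (Subalgebra.algebraMap_mem _ c)
    refine t3S_ind (p := fun y => y ∈ (ic K (Rb (C.ℓ i)) ⊔ ic K (Rb (C.ℓ j)) : Subring K)) (zero_mem _)
      (fun x y hx hy => add_mem hx hy) ?_ ?_ hy
    · intro c x hx
      rw [Algebra.smul_def]
      exact mul_mem (g1 (hk c)) hx
    · intro m hm
      by_cases hi : 0 ≤ t3e i m
      · exact g2 ((t3_ring hn hK hw hij.symm hjh hih _).2 (t3S_mon ⟨hi, hm⟩))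
      · by_cases hj : 0 ≤ t3e j m
        · exact g1 ((t3_ring hn hK hw hij hih hjh _).2 (t3S_mon ⟨hj, hm⟩))
        · rw [t3_decomp hih.symm hjh.symm hij m, t3mon_add (hw.ne 1) (hw.ne 2)]
          have e1 : t3e i m • (t3v i - t3v h) ∈ t3H j ∩ t3H h := by
            constructor
            · change 0 ≤ t3e j _
              rw [t3e_zsmul, t3e_v, if_neg hij.symm, if_neg hjh]
              simp
            · change 0 ≤ t3e h _
              rw [t3e_zsmul, t3e_v, if_neg hih.symm, if_pos rfl]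
              omega
          have e2 : t3e j m • (t3v j - t3v h) ∈ t3H i ∩ t3H h := by
            constructor
            · change 0 ≤ t3e i _
              rw [t3e_zsmul, t3e_v, if_neg hij, if_neg hih]
              simp
            · change 0 ≤ t3e h _
              rw [t3e_zsmul, t3e_v, if_neg hjh.symm, if_pos rfl]
              omega
          exact mul_mem (g1 ((t3_ring hn hK hw hij hih hjh _).2 (t3S_mon e1)))
            (g2 ((t3_ring hn hK hw hij.symm hjh hih _).2 (t3S_mon e2)))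

omit [IsScalarTower k (F k) K] in
/-- Derivations on monomials. -/
theorem t3_Dmon (hw : T3W C n K w) (D : Derivation k K K) (m : ℤ × ℤ) :
    D (t3mon w m) = ((m.1 : K) * (D (w 1) / w 1) + (m.2 : K) * (D (w 2) / w 2)) * t3mon w m := by
  have h1 := hw.ne 1
  have h2 := hw.ne 2
  unfold t3mon
  rw [D.leibniz, D.leibniz_zpow, D.leibniz_zpow]
  simp only [smul_eq_mul, zsmul_eq_mul]
  rw [zpow_sub_one₀ h1, zpow_sub_one₀ h2]
  field_simp
  ring

/-- Derivations which agree on `w 1` and `w 2` are equal. -/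
theorem t3_ext [CharZero k] [FiniteDimensional (F k) K] (hw : T3W C n K w) (D D' : Derivation k K K)
    (h1 : D (w 1) = D' (w 1)) (h2 : D (w 2) = D' (w 2)) : D = D' := by
  obtain ⟨-, hu, -, -⟩ := tExtDer k (F k) K
  refine hu D D' fun f => ?_
  let Z : IntermediateField k (F k) :=
    { carrier := {f | D (algebraMap (F k) K f) = D' (algebraMap (F k) K f)}
      mul_mem' := by
        intro a b ha hb
        change D (algebraMap (F k) K a) = D' (algebraMap (F k) K a) at ha
        change D (algebraMap (F k) K b) = D' (algebraMap (F k) K b) at hb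
        change D (algebraMap (F k) K (a * b)) = D' (algebraMap (F k) K (a * b))
        rw [map_mul, D.leibniz, D'.leibniz, ha, hb]
      add_mem' := by
        intro a b ha hb
        change D (algebraMap (F k) K a) = D' (algebraMap (F k) K a) at ha
        change D (algebraMap (F k) K b) = D' (algebraMap (F k) K b) at hb
        change D (algebraMap (F k) K (a + b)) = D' (algebraMap (F k) K (a + b))
        rw [map_add, map_add, map_add, ha, hb]
      algebraMap_mem' := by
        intro c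
        change D (algebraMap (F k) K (algebraMap k (F k) c)) = D' (algebraMap (F k) K (algebraMap k (F k) c))
        rw [← IsScalarTower.algebraMap_apply, D.map_algebraMap, D'.map_algebraMap]
      inv_mem' := by
        intro a ha
        change D (algebraMap (F k) K a) = D' (algebraMap (F k) K a) at ha
        change D (algebraMap (F k) K a⁻¹) = D' (algebraMap (F k) K a⁻¹)
        rw [map_inv₀, D.leibniz_inv, D'.leibniz_inv, ha] }
  have hp : ∀ i, D (w i) = D' (w i) → ev (C.ℓ i) / ev (C.ℓ 0) ∈ Z := by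
    intro i hi
    change D (algebraMap (F k) K (ev (C.ℓ i) / ev (C.ℓ 0))) = D' (algebraMap (F k) K (ev (C.ℓ i) / ev (C.ℓ 0)))
    rw [← hw.pow, hw.zero, div_one, D.leibniz_pow, D'.leibniz_pow, hi]
  have hZ : Z = ⊤ := eq_top_of_quot (t3_indep3 C (i := 0) (j := 1) (h := 2) (by decide) (by decide) (by decide)) Z
    (hp 1 h1) (hp 2 h2)
  have hf : f ∈ Z := by rw [hZ]; trivial
  exact hf

end

end Pool.Agent.Lib.MP_4318ff_ag
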