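import Pool.Agent.Lib.MP_4318ff_ag.T3.Simply

/-!
# MP_4318ff_ag, part T3: Laurent monomials (helper11)
-/

set_option autoImplicit false

namespace Pool.Agent.Lib.MP_4318ff_ag

open scoped LinearAlgebra.Projectivization

section

variable {k : Type} [Field k] {K : Type} [Field K] [Algebra k K] {w : Fin 3 → K}

/-- The Laurent monomials in `w 1`, `w 2`. -/
noncomputable def t3mon (w : Fin 3 → K) (m : ℤ × ℤ) : K := w 1 ^ m.1 * w 2 ^ m.2

theorem t3mon_add (h1 : w 1 ≠ 0) (h2 : w 2 ≠ 0) (m m' : ℤ × ℤ) :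
    t3mon w (m + m') = t3mon w m * t3mon w m' := by
  unfold t3mon
  rw [Prod.fst_add, Prod.snd_add, zpow_add₀ h1, zpow_add₀ h2]
  ring

theorem t3mon_zero : t3mon w 0 = 1 := by simp [t3mon]

theorem t3mon_ne (h1 : w 1 ≠ 0) (h2 : w 2 ≠ 0) (m : ℤ × ℤ) : t3mon w m ≠ 0 :=
  mul_ne_zero (zpow_ne_zero _ h1) (zpow_ne_zero _ h2)

theorem t3mon_li (h1 : w 1 ≠ 0) (h2 : w 2 ≠ 0) (hAI : AlgebraicIndependent k ![w 1, w 2]) :
    LinearIndependent k (t3mon w) := by
  rw [linearIndependent_iff']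
  intro s g hsum i hi
  obtain ⟨N, hN⟩ : ∃ N : ℕ, ∀ m ∈ s, 0 ≤ m.1 + N ∧ 0 ≤ m.2 + N := by
    refine ⟨∑ m ∈ s, (m.1.natAbs + m.2.natAbs), fun m hm => ?_⟩
    have h3 : m.1.natAbs + m.2.natAbs ≤ ∑ m ∈ s, (m.1.natAbs + m.2.natAbs) :=
      Finset.single_le_sum (f := fun m : ℤ × ℤ => m.1.natAbs + m.2.natAbs) (fun _ _ => Nat.zero_le _) hm
    constructor <;> omega
  let e : ℤ × ℤ → (Fin 2 →₀ ℕ) := fun m =>
    Finsupp.single 0 (m.1 + N).toNat + Finsupp.single 1 (m.2 + N).toNat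
  have he : ∀ m ∈ s, ∀ m' ∈ s, e m = e m' → m = m' := by
    intro m hm m' hm' h
    have h4 := DFunLike.congr_fun h 0
    have h5 := DFunLike.congr_fun h 1
    simp only [e, Finsupp.add_apply, Finsupp.single_eq_same, Finsupp.single_apply] at h4 h5
    simp at h4 h5
    obtain ⟨a, b⟩ := hN m hm
    obtain ⟨a', b'⟩ := hN m' hm'
    ext
    · omega
    · omega
  set P : MvPolynomial (Fin 2) k := ∑ m ∈ s, MvPolynomial.monomial (e m) (g m) with hP
  have hPe : MvPolynomial.aeval ![w 1, w 2] P = 0 := by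
    rw [hP, map_sum]
    have h6 : ∀ m ∈ s, MvPolynomial.aeval ![w 1, w 2] (MvPolynomial.monomial (e m) (g m)) =
        t3mon w (N, N) * (g m • t3mon w m) := by
      intro m hm
      obtain ⟨a, b⟩ := hN m hm
      have ha : ((m.1 + N).toNat : ℤ) = m.1 + N := Int.toNat_of_nonneg a
      have hb : ((m.2 + N).toNat : ℤ) = m.2 + N := Int.toNat_of_nonneg b
      have h7 : t3mon w (N, N) * t3mon w m = w 1 ^ (m.1 + N).toNat * w 2 ^ (m.2 + N).toNat := by
        rw [← t3mon_add h1 h2, t3mon, ← zpow_natCast, ← zpow_natCast, ha, hb]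
        simp only [Prod.fst_add, Prod.snd_add]
        rw [add_comm (N : ℤ) m.1, add_comm (N : ℤ) m.2]
      rw [mul_smul_comm, h7, MvPolynomial.aeval_monomial, Algebra.smul_def]
      congr 1
      rw [Finsupp.prod_fintype _ _ (fun _ => pow_zero _), Fin.prod_univ_two]
      simp [e]
    rw [Finset.sum_congr rfl h6, ← Finset.mul_sum, hsum, mul_zero]
  have hP0 : P = 0 := by
    rw [algebraicIndependent_iff_injective_aeval] at hAI
    apply hAI
    rw [hPe, map_zero]
  have h8 := congrArg (MvPolynomial.coeff (e i)) hP0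
  rw [hP, MvPolynomial.coeff_sum, MvPolynomial.coeff_zero] at h8
  rw [Finset.sum_eq_single i] at h8
  · rw [MvPolynomial.coeff_monomial, if_pos rfl] at h8
    exact h8
  · intro m hm hmi
    rw [MvPolynomial.coeff_monomial, if_neg]
    intro h9
    exact hmi (he m hm i hi h9)
  · intro h; exact absurd hi h

/-- Linear maps with prescribed values on a linearly independent family. -/
theorem t3_linmap {ι : Type} {v : ι → K} (hli : LinearIndependent k v) (f : ι → K) :
    ∃ P : K →ₗ[k] K, ∀ i, P (v i) = f i := by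
  obtain ⟨P, hP⟩ := LinearMap.exists_extend ((Module.Basis.span hli).constr k f)
  refine ⟨P, fun i => ?_⟩
  have h1 := LinearMap.congr_fun hP (Module.Basis.span hli i)
  rw [Module.Basis.constr_basis] at h1
  rw [← h1]
  change P (v i) = P ((Module.Basis.span hli i : Submodule.span k (Set.range v)) : K)
  rw [Module.Basis.span_apply]

/-- The span of the monomials with exponents in `S`. -/
noncomputable def T3S (k : Type) [Field k] {K : Type} [Field K] [Algebra k K] (w : Fin 3 → K) (S : Set (ℤ × ℤ)) :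
    Submodule k K := Submodule.span k (t3mon w '' S)

theorem t3S_mon {S : Set (ℤ × ℤ)} {m : ℤ × ℤ} (hm : m ∈ S) : t3mon w m ∈ T3S k w S :=
  Submodule.subset_span ⟨m, hm, rfl⟩

theorem t3S_mono {S S' : Set (ℤ × ℤ)} (h : S ⊆ S') : T3S k w S ≤ T3S k w S' :=
  Submodule.span_mono (Set.image_mono h)

theorem t3S_ind {S : Set (ℤ × ℤ)} {p : K → Prop} (h0 : p 0) (hadd : ∀ x y, p x → p y → p (x + y))
    (hs : ∀ (c : k) x, p x → p (c • x)) (hm : ∀ m ∈ S, p (t3mon w m)) {x : K} (hx : x ∈ T3S k w S) : p x := by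
  induction hx using Submodule.span_induction with
  | mem x hx => obtain ⟨m, hm', rfl⟩ := hx; exact hm m hm'
  | zero => exact h0
  | add x y _ _ hx hy => exact hadd x y hx hy
  | smul c x _ hx => exact hs c x hx

theorem t3S_mulmon (h1 : w 1 ≠ 0) (h2 : w 2 ≠ 0) {S S' : Set (ℤ × ℤ)} {m : ℤ × ℤ} (h : ∀ l ∈ S, l + m ∈ S') {x : K}
    (hx : x ∈ T3S k w S) : x * t3mon w m ∈ T3S k w S' := by
  refine t3S_ind (p := fun x => x * t3mon w m ∈ T3S k w S') ?_ ?_ ?_ ?_ hx
  · rw [zero_mul]; exact zero_mem _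
  · intro x y hx hy; rw [add_mul]; exact add_mem hx hy
  · intro c x hx; rw [smul_mul_assoc]; exact Submodule.smul_mem _ c hx
  · intro l hl
    rw [← t3mon_add h1 h2]
    exact t3S_mon (h l hl)

theorem t3S_mul (h1 : w 1 ≠ 0) (h2 : w 2 ≠ 0) {S S' S'' : Set (ℤ × ℤ)} (h : ∀ l ∈ S, ∀ m ∈ S', l + m ∈ S'') {x y : K}
    (hx : x ∈ T3S k w S) (hy : y ∈ T3S k w S') : x * y ∈ T3S k w S'' := by
  refine t3S_ind (p := fun y => x * y ∈ T3S k w S'') ?_ ?_ ?_ ?_ hy
  · rw [mul_zero]; exact zero_mem _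
  · intro x y hx hy; rw [mul_add]; exact add_mem hx hy
  · intro c x hx; rw [mul_smul_comm]; exact Submodule.smul_mem _ c hx
  · intro m hm
    exact t3S_mulmon h1 h2 (fun l hl => h l hl m hm) hx

open Classical in
/-- Projection to the monomials with exponents in `A`. -/
theorem t3S_proj {A S : Set (ℤ × ℤ)} {P : K →ₗ[k] K} (hP : ∀ m, P (t3mon w m) = if m ∈ A then t3mon w m else 0) {x : K}
    (hx : x ∈ T3S k w S) : P x ∈ T3S k w (S ∩ A) := by
  refine t3S_ind (p := fun x => P x ∈ T3S k w (S ∩ A)) ?_ ?_ ?_ ?_ hx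
  · rw [map_zero]; exact zero_mem _
  · intro x y hx hy; rw [map_add]; exact add_mem hx hy
  · intro c x hx; rw [map_smul]; exact Submodule.smul_mem _ c hx
  · intro m hm
    rw [hP]
    split
    · rename_i h; exact t3S_mon ⟨hm, h⟩
    · exact zero_mem _

open Classical in
/-- The intersection of two spans of monomials. -/
theorem t3S_inter (hli : LinearIndependent k (t3mon w)) {S S' : Set (ℤ × ℤ)} {x : K} (hx : x ∈ T3S k w S)
    (hx' : x ∈ T3S k w S') : x ∈ T3S k w (S ∩ S') := by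
  obtain ⟨P, hP⟩ := t3_linmap hli (fun m => if m ∈ S then t3mon w m else 0)
  have h1 : P x = x := by
    refine t3S_ind (S := S) (p := fun x => P x = x) ?_ ?_ ?_ ?_ hx
    · exact map_zero _
    · intro x y hx hy; rw [map_add, hx, hy]
    · intro c x hx; rw [map_smul, hx]
    · intro m hm; rw [hP, if_pos hm]
  rw [← h1, Set.inter_comm]
  exact t3S_proj hP hx'

open Classical in
/-- Projections of multiples of monomials. -/
theorem t3S_projmul (h1 : w 1 ≠ 0) (h2 : w 2 ≠ 0) {A H : Set (ℤ × ℤ)} {P : K →ₗ[k] K}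
    (hP : ∀ m, P (t3mon w m) = if m ∈ A then t3mon w m else 0) {x : K} {m : ℤ × ℤ}
    (hx : x * t3mon w m ∈ T3S k w H) : P x * t3mon w m ∈ T3S k w H ∧ P x ∈ T3S k w A := by
  have h3 : x ∈ T3S k w {l | l + m ∈ H} := by
    have h4 : x = x * t3mon w m * t3mon w (-m) := by
      rw [mul_assoc, ← t3mon_add h1 h2, add_neg_cancel, t3mon_zero, mul_one]
    rw [h4]
    refine t3S_mulmon h1 h2 ?_ hx
    intro l hl
    change l + -m + m ∈ H
    rwa [neg_add_cancel_right]
  have h5 := t3S_proj hP h3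
  refine ⟨?_, t3S_mono Set.inter_subset_right h5⟩
  refine t3S_mulmon h1 h2 ?_ h5
  intro l hl
  exact hl.1

end

end Pool.Agent.Lib.MP_4318ff_ag
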