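import Pool.Agent.Lib.MP_4318ff_ag.T3.Basic

/-!
# MP_4318ff_ag, part T3: the Kummer field of three lines is a rational function field (helper11)
-/

set_option autoImplicit false

namespace Pool.Agent.Lib.MP_4318ff_ag

open scoped LinearAlgebra.Projectivization

/-- The affine coordinates `w i / w 0` of the covering plane. -/
structure T3W {k : Type} [Field k] (C : Config k 3) (n : ℕ) (K : Type) [Field K] [Algebra (F k) K]
    (w : Fin 3 → K) : Prop where
  zero : w 0 = 1
  ne : ∀ i, w i ≠ 0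
  pow : ∀ i j, (w j / w i) ^ n = algebraMap (F k) K (ev (C.ℓ j) / ev (C.ℓ i))

section

variable {k : Type} [Field k] {C : Config k 3} {n : ℕ} {K : Type} [Field K] [Algebra (F k) K]

theorem t3_exW (hn : 0 < n) (hR : Roots K C n) : ∃ w : Fin 3 → K, T3W C n K w := by
  obtain ⟨z1, h1⟩ := hR 1 0
  obtain ⟨z2, h2⟩ := hR 2 0
  have hl : ∀ i, ev (C.ℓ i) ≠ 0 := fun i => ev_ne_zero (t3_ne C i)
  have hne : ∀ i j, algebraMap (F k) K (ev (C.ℓ i) / ev (C.ℓ j)) ≠ 0 := by
    intro i j
    rw [Ne, map_eq_zero]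
    exact div_ne_zero (hl i) (hl j)
  have hz1 : z1 ≠ 0 := by
    rintro rfl
    rw [zero_pow hn.ne'] at h1
    exact hne 1 0 h1.symm
  have hz2 : z2 ≠ 0 := by
    rintro rfl
    rw [zero_pow hn.ne'] at h2
    exact hne 2 0 h2.symm
  have hp : ∀ i : Fin 3, (![1, z1, z2] i : K) ^ n = algebraMap (F k) K (ev (C.ℓ i) / ev (C.ℓ 0)) := by
    intro i
    fin_cases i
    · change (1 : K) ^ n = algebraMap (F k) K (ev (C.ℓ 0) / ev (C.ℓ 0))
      rw [one_pow, div_self (hl 0), map_one]
    · exact h1
    · exact h2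
  refine ⟨![1, z1, z2], rfl, ?_, ?_⟩
  · intro i
    fin_cases i
    · exact one_ne_zero
    · exact hz1
    · exact hz2
  · intro i j
    rw [div_pow, hp, hp, ← map_div₀]
    congr 1
    have := hl 0
    have := hl i
    field_simp

variable [Algebra k K] [IsScalarTower k (F k) K] {w : Fin 3 → K}

theorem t3_AI (hn : 0 < n) (hw : T3W C n K w) {i j h : Fin 3} (hij : i ≠ j) (hih : i ≠ h) (hjh : j ≠ h) :
    AlgebraicIndependent k ![w j / w i, w h / w i] := by
  apply t3_algind _ n hn
  have h1 : (fun a : Fin 2 => (![w j / w i, w h / w i] a : K) ^ n) =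
      (IsScalarTower.toAlgHom k (F k) K) ∘ ![ev (C.ℓ j) / ev (C.ℓ i), ev (C.ℓ h) / ev (C.ℓ i)] := by
    ext a
    fin_cases a
    · exact hw.pow i j
    · exact hw.pow i h
  rw [h1]
  refine AlgebraicIndependent.map' ?_ (algebraMap (F k) K).injective
  rw [algebraicIndependent_iff_injective_aeval]
  exact (isCoord_affine (t3_indep3 C hij hih hjh)).1

/-- Coefficients of a form in the basis `ℓ`. -/
theorem t3_form {i j h : Fin 3} (hij : i ≠ j) (hih : i ≠ h) (hjh : j ≠ h) (c : Fin 3 → k) :
    ∃ a b d : k, c = a • C.ℓ i + b • C.ℓ j + d • C.ℓ h := by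
  have hsp : Submodule.span k (Set.range ![C.ℓ i, C.ℓ j, C.ℓ h]) = ⊤ := by
    rw [LinearIndependent.span_eq_top_of_card_eq_finrank' (t3_indep3 C hij hih hjh) (by simp)]
  have hc : c ∈ Submodule.span k (Set.range ![C.ℓ i, C.ℓ j, C.ℓ h]) := by rw [hsp]; trivial
  rw [Submodule.mem_span_range_iff_exists_fun] at hc
  obtain ⟨t, ht⟩ := hc
  refine ⟨t 0, t 1, t 2, ?_⟩
  rw [← ht, Fin.sum_univ_three]
  rfl

theorem t3_psi [IsAlgClosed k] (hn : 0 < n) (hw : T3W C n K w) {i j h : Fin 3} (hij : i ≠ j) (hih : i ≠ h)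
    (hjh : j ≠ h) : ∃ ψ : F k →ₐ[k] K,
      ψ (algebraMap (MvPolynomial (Fin 2) k) (F k) (MvPolynomial.X 0)) = w j / w i ∧
      ψ (algebraMap (MvPolynomial (Fin 2) k) (F k) (MvPolynomial.X 1)) = w h / w i ∧
      (∀ y ∈ Kummer K C n, ∃ f, ψ f = y) ∧
      (∀ P : MvPolynomial (Fin 2) k, ψ (algebraMap _ (F k) P) ∈ ic K (Rb (C.ℓ i))) ∧
      (∀ y ∈ ic K (Rb (C.ℓ i)), y ∈ Kummer K C n → ∃ P : MvPolynomial (Fin 2) k, ψ (algebraMap _ (F k) P) = y) := by
  have hAI := t3_AI hn hw hij hih hjh
  rw [algebraicIndependent_iff_injective_aeval] at hAI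
  set κ : MvPolynomial (Fin 2) k →ₐ[k] K := MvPolynomial.aeval ![w j / w i, w h / w i] with hκ
  let ψ : F k →ₐ[k] K := IsFractionRing.liftAlgHom hAI
  have hψ : ∀ P, ψ (algebraMap (MvPolynomial (Fin 2) k) (F k) P) = κ P := fun P =>
    IsFractionRing.lift_algebraMap hAI P
  have hψX0 : ψ (algebraMap (MvPolynomial (Fin 2) k) (F k) (MvPolynomial.X 0)) = w j / w i := by
    rw [hψ, hκ, MvPolynomial.aeval_X]
    rfl
  have hψX1 : ψ (algebraMap (MvPolynomial (Fin 2) k) (F k) (MvPolynomial.X 1)) = w h / w i := by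
    rw [hψ, hκ, MvPolynomial.aeval_X]
    rfl
  have hli := ev_ne_zero (t3_ne C i)
  -- the image of the coordinate ring
  have hR : ∀ s ∈ Rb (C.ℓ i), algebraMap (F k) K s ∈ κ.range := by
    intro s hs
    induction hs using Algebra.adjoin_induction with
    | mem s hs =>
      obtain ⟨c, rfl⟩ := hs
      obtain ⟨a, b, d, rfl⟩ := t3_form (C := C) hij hih hjh c
      have h1 : ev (a • C.ℓ i + b • C.ℓ j + d • C.ℓ h) / ev (C.ℓ i) =
          algebraMap k (F k) a + algebraMap k (F k) b * (ev (C.ℓ j) / ev (C.ℓ i)) +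
            algebraMap k (F k) d * (ev (C.ℓ h) / ev (C.ℓ i)) := by
        rw [ev_add, ev_add, ev_smul, ev_smul, ev_smul]
        field_simp
      rw [h1, map_add, map_add, map_mul, map_mul, ← hw.pow, ← hw.pow, ← IsScalarTower.algebraMap_apply,
        ← IsScalarTower.algebraMap_apply, ← IsScalarTower.algebraMap_apply]
      have hX0 : w j / w i ∈ κ.range := ⟨MvPolynomial.X 0, by
        change κ _ = _
        rw [hκ, MvPolynomial.aeval_X]; rfl⟩
      have hX1 : w h / w i ∈ κ.range := ⟨MvPolynomial.X 1, by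
        change κ _ = _
        rw [hκ, MvPolynomial.aeval_X]; rfl⟩
      exact κ.range.add_mem (κ.range.add_mem (κ.range.algebraMap_mem a)
        (κ.range.mul_mem (κ.range.algebraMap_mem b) (κ.range.pow_mem hX0 n)))
        (κ.range.mul_mem (κ.range.algebraMap_mem d) (κ.range.pow_mem hX1 n))
    | algebraMap t => rw [← IsScalarTower.algebraMap_apply]; exact κ.range.algebraMap_mem t
    | add x y _ _ hx hy => rw [map_add]; exact κ.range.add_mem hx hy
    | mul x y _ _ hx hy => rw [map_mul]; exact κ.range.mul_mem hx hy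
  -- the Kummer field is the image of `ψ`
  have hKum : ∀ y ∈ Kummer K C n, ∃ f, ψ f = y := by
    have h1 : Kummer K C n ≤ ψ.fieldRange.toSubfield := by
      unfold Kummer
      rw [Subfield.closure_le]
      rintro x (⟨f, rfl⟩ | ⟨a, b, hab⟩)
      · have h2 : (ψ.fieldRange.comap (IsScalarTower.toAlgHom k (F k) K)) = ⊤ := by
          apply eq_top_of_quot (t3_indep3 C hij hih hjh)
          · obtain ⟨P, hP⟩ := hR _ (t3_mem_Rb (C.ℓ i) (C.ℓ j))
            exact ⟨algebraMap _ _ P, (hψ P).trans hP⟩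
          · obtain ⟨P, hP⟩ := hR _ (t3_mem_Rb (C.ℓ i) (C.ℓ h))
            exact ⟨algebraMap _ _ P, (hψ P).trans hP⟩
        have h3 : f ∈ ψ.fieldRange.comap (IsScalarTower.toAlgHom k (F k) K) := by rw [h2]; trivial
        exact h3
      · have hwm : ∀ c, w c / w i ∈ ψ.fieldRange := by
          intro c
          have hc : c = i ∨ c = j ∨ c = h := by
            revert hij hih hjh
            clear * -
            fin_cases i <;> fin_cases j <;> fin_cases h <;> fin_cases c <;> simp
          rcases hc with rfl | rfl | rfl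
          · rw [div_self (hw.ne _)]
            exact one_mem _
          · exact ⟨_, hψX0⟩
          · exact ⟨_, hψX1⟩
        have hq : w a / w b ∈ ψ.fieldRange := by
          have h4 : w a / w b = (w a / w i) / (w b / w i) := by
            have := hw.ne i
            have := hw.ne b
            field_simp
          rw [h4]
          exact div_mem (hwm a) (hwm b)
        have hpow : (x / (w a / w b)) ^ n = 1 := by
          rw [div_pow, hab, hw.pow]
          refine div_self ?_
          rw [Ne, map_eq_zero]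
          exact div_ne_zero (ev_ne_zero (t3_ne C a)) (ev_ne_zero (t3_ne C b))
        have hint : IsIntegral k (x / (w a / w b)) := by
          refine ⟨Polynomial.X ^ n - Polynomial.C 1, Polynomial.monic_X_pow_sub_C 1 hn.ne', ?_⟩
          simp [hpow]
        obtain ⟨ζ, hζ⟩ := minpoly.mem_range_of_degree_eq_one k _
          (IsAlgClosed.degree_eq_one_of_irreducible k (minpoly.irreducible hint))
        have hx : x = algebraMap k K ζ * (w a / w b) := by
          rw [hζ, div_mul_cancel₀]
          exact div_ne_zero (hw.ne a) (hw.ne b)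
        rw [hx]
        exact mul_mem (ψ.fieldRange.algebraMap_mem ζ) hq
    intro y hy
    obtain ⟨f, hf⟩ := h1 hy
    exact ⟨f, hf⟩
  refine ⟨ψ, hψX0, hψX1, hKum, ?_, ?_⟩
  · intro P
    rw [hψ]
    have hwi : ∀ c, w c / w i ∈ ic K (Rb (C.ℓ i)) := by
      intro c
      change IsIntegral (Rb (C.ℓ i)) _
      refine IsIntegral.of_pow hn ?_
      rw [hw.pow]
      exact algebraMap_mem_ic K (t3_mem_Rb _ _)
    induction P using MvPolynomial.induction_on with
    | C a =>
      rw [hκ, MvPolynomial.aeval_C]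
      rw [IsScalarTower.algebraMap_apply k (F k) K]
      exact algebraMap_mem_ic K (Subalgebra.algebraMap_mem _ a)
    | add p q hp hq => rw [map_add]; exact add_mem hp hq
    | mul_X p a hp =>
      rw [map_mul]
      refine mul_mem hp ?_
      rw [hκ, MvPolynomial.aeval_X]
      fin_cases a
      · exact hwi j
      · exact hwi h
  · intro y hy hyK
    obtain ⟨f, rfl⟩ := hKum y hyK
    have hmem : ∀ s : Rb (C.ℓ i), algebraMap (F k) K (s : F k) ∈ κ.range := fun s => hR s s.2
    let e := AlgEquiv.ofInjective κ hAI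
    let g : Rb (C.ℓ i) →+* κ.range := ((algebraMap (F k) K).comp (Rb (C.ℓ i)).val.toRingHom).codRestrict κ.range hmem
    let ρ : Rb (C.ℓ i) →+* MvPolynomial (Fin 2) k := (e.symm : κ.range →+* MvPolynomial (Fin 2) k).comp g
    have hρ : ∀ s : Rb (C.ℓ i), κ (ρ s) = algebraMap (F k) K (s : F k) := by
      intro s
      have h1 : e (ρ s) = g s := e.apply_symm_apply (g s)
      exact congrArg Subtype.val h1
    obtain ⟨p, hp, hp0⟩ := hy
    have hint : IsIntegral (MvPolynomial (Fin 2) k) f := by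
      refine ⟨p.map ρ, hp.map ρ, ?_⟩
      apply ψ.toRingHom.injective
      rw [map_zero, Polynomial.hom_eval₂, Polynomial.eval₂_map]
      have h1 : (ψ.toRingHom.comp (algebraMap (MvPolynomial (Fin 2) k) (F k))).comp ρ =
          algebraMap (Rb (C.ℓ i)) K := by
        ext s
        exact (hψ (ρ s)).trans (hρ s)
      rw [h1]
      exact hp0
    obtain ⟨P, hP⟩ := IsIntegrallyClosed.isIntegral_iff.1 hint
    exact ⟨P, by rw [hP]⟩

/-- Criterion for a derivation of `K` to preserve the coordinate ring of the affine chart `ℓ i ≠ 0`. -/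
theorem t3_der [CharZero k] [IsAlgClosed k] (hn : 0 < n) (hK : IsEtaleCover C n K) (hw : T3W C n K w) {i j h : Fin 3}
    (hij : i ≠ j) (hih : i ≠ h) (hjh : j ≠ h) (D : Derivation k K K)
    (h1 : D (w j / w i) ∈ ic K (Rb (C.ℓ i))) (h2 : D (w h / w i) ∈ ic K (Rb (C.ℓ i))) :
    ∀ y ∈ ic K (Rb (C.ℓ i)), D y ∈ ic K (Rb (C.ℓ i)) := by
  obtain ⟨ψ, hX0, hX1, -, hint, hsur⟩ := t3_psi hn hw hij hih hjh
  have hc : CharZero K := charZero_of_injective_algebraMap (algebraMap k K).injective
  set u := t3_chart C (C.ℓ i) (t3_ne C i) with hu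
  have hA : u.A K = ic K (Rb (C.ℓ i)) := t3_A C u K
  have key := tEtStep K _ _ inf_le_left (hK.etale u) (D.restrictScalars ℤ) ?_ (et_int C n K u)
  · intro y hy
    rw [← hA] at hy ⊢
    exact key y hy
  · rintro x ⟨hx1, hx2⟩
    rw [hA] at hx1 ⊢
    obtain ⟨P, rfl⟩ := hsur x hx1 hx2
    change D _ ∈ _
    clear hx1 hx2
    induction P using MvPolynomial.induction_on with
    | C a =>
      have h3 : ψ (algebraMap (MvPolynomial (Fin 2) k) (F k) (MvPolynomial.C a)) = algebraMap k K a := by
        have h4 : algebraMap (MvPolynomial (Fin 2) k) (F k) (MvPolynomial.C a) = algebraMap k (F k) a :=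
          (IsScalarTower.algebraMap_apply k (MvPolynomial (Fin 2) k) (F k) a).symm
        rw [h4]
        exact ψ.commutes a
      rw [h3, D.map_algebraMap]
      exact zero_mem _
    | add p q hp hq => rw [map_add, map_add, map_add]; exact add_mem hp hq
    | mul_X p a hp =>
      rw [map_mul, map_mul, D.leibniz, smul_eq_mul, smul_eq_mul]
      refine add_mem (mul_mem (hint p) ?_) (mul_mem (hint _) hp)
      fin_cases a
      · change D (ψ (algebraMap (MvPolynomial (Fin 2) k) (F k) (MvPolynomial.X 0))) ∈ _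
        rw [hX0]
        exact h1
      · change D (ψ (algebraMap (MvPolynomial (Fin 2) k) (F k) (MvPolynomial.X 1))) ∈ _
        rw [hX1]
        exact h2

end

end Pool.Agent.Lib.MP_4318ff_ag
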