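import Pool.Agent.Lib.MP_4318ff_ag.T3.Psi

/-!
# MP_4318ff_ag, part T3: the plane is simply connected (helper11)

For three lines every etale covering of the Hirzebruch-Kummer covering (the plane) is trivial: `K` is the Kummer field.
The derivations `∂/∂w₁`, `∂/∂w₂` lower the pole order at infinity.
-/

set_option autoImplicit false

namespace Pool.Agent.Lib.MP_4318ff_ag

open scoped LinearAlgebra.Projectivization

section

variable {k : Type} [Field k] {C : Config k 3} {n : ℕ} {K : Type} [Field K] [Algebra (F k) K]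
variable [Algebra k K] [IsScalarTower k (F k) K] {w : Fin 3 → K}

/-- Derivations with prescribed values. -/
theorem t3_exD [CharZero k] [FiniteDimensional (F k) K] (hn : 0 < n) (hw : T3W C n K w) (s t : K) :
    ∃ D : Derivation k K K, D (w 1) = s ∧ D (w 2) = t := by
  have hc : CharZero K := charZero_of_injective_algebraMap (algebraMap k K).injective
  have hu : IsUnit (Matrix.of C.ℓ) := by
    rw [← Matrix.linearIndependent_rows_iff_isUnit]
    exact t3_indep C
  have hdet := (Matrix.isUnit_iff_isUnit_det _).1 hu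
  set N := (Matrix.of C.ℓ)⁻¹ with hN
  have hMN : (Matrix.of C.ℓ) * N = 1 := Matrix.mul_nonsing_inv _ hdet
  set e : Fin 3 → K := fun i => algebraMap (F k) K (ev (C.ℓ i)) with he
  have he0 : ∀ i, e i ≠ 0 := by
    intro i
    rw [he]
    change algebraMap (F k) K (ev (C.ℓ i)) ≠ 0
    rw [Ne, map_eq_zero]
    exact ev_ne_zero (t3_ne C i)
  set S : Fin 3 → K := ![0, e 0 * (n * w 1 ^ (n - 1) * s), e 0 * (n * w 2 ^ (n - 1) * t)] with hS
  obtain ⟨E, hE⟩ := tDerV k K (fun a => ∑ i, S i * algebraMap k K (N a i))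
  have hdot : ∀ j, E (e j) = S j - (∑ i, S i * algebraMap k K (N 0 i)) * e j := by
    intro j
    rw [he]
    change E (algebraMap (F k) K (ev (C.ℓ j))) = _
    rw [hE]
    congr 1
    have h1 : ∀ i, ∑ a, algebraMap k K (C.ℓ j a) * algebraMap k K (N a i) = if j = i then 1 else 0 := by
      intro i
      have h2 : ((Matrix.of C.ℓ) * N) j i = (1 : Matrix (Fin 3) (Fin 3) k) j i := by rw [hMN]
      rw [Matrix.mul_apply, Matrix.one_apply] at h2
      have h3 := congrArg (algebraMap k K) h2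
      rw [map_sum] at h3
      simp only [map_mul, Matrix.of_apply] at h3
      rw [h3]
      split <;> simp
    calc ∑ a, algebraMap k K (C.ℓ j a) * ∑ i, S i * algebraMap k K (N a i)
        = ∑ i, S i * ∑ a, algebraMap k K (C.ℓ j a) * algebraMap k K (N a i) := by
          simp only [Finset.mul_sum]
          rw [Finset.sum_comm]
          refine Finset.sum_congr rfl fun i _ => Finset.sum_congr rfl fun a _ => ?_
          ring
      _ = S j := by
          simp only [h1]
          simp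
  have hquot : ∀ j, E (e j / e 0) = S j / e 0 := by
    intro j
    have h0 : E (e 0) = - (∑ i, S i * algebraMap k K (N 0 i)) * e 0 := by
      rw [hdot 0, hS]
      simp
    rw [Derivation.leibniz_div, hdot j, h0]
    have := he0 0
    simp only [smul_eq_mul]
    field_simp
    ring
  have hval : ∀ j, ∀ x : K, S j = e 0 * (n * w j ^ (n - 1) * x) → E (w j) = x := by
    intro j x hx
    have h1 : w j ^ n = e j / e 0 := by
      have := hw.pow 0 j
      rw [hw.zero, div_one] at this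
      rw [this, map_div₀]
    have h2 : E (w j ^ n) = n * w j ^ (n - 1) * E (w j) := by
      rw [E.leibniz_pow]
      simp only [smul_eq_mul, nsmul_eq_mul]
      ring
    rw [h1, hquot j, hx, mul_div_cancel_left₀ _ (he0 0)] at h2
    have h3 : (n : K) * w j ^ (n - 1) ≠ 0 :=
      mul_ne_zero (Nat.cast_ne_zero.2 hn.ne') (pow_ne_zero _ (hw.ne j))
    exact (mul_left_cancel₀ h3 h2).symm
  exact ⟨E, hval 1 s rfl, hval 2 t rfl⟩

omit [Algebra k K] [IsScalarTower k (F k) K] in
theorem t3_wmem (hn : 0 < n) (hw : T3W C n K w) (i c : Fin 3) : w c / w i ∈ ic K (Rb (C.ℓ i)) := by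
  change IsIntegral (Rb (C.ℓ i)) _
  refine IsIntegral.of_pow hn ?_
  rw [hw.pow]
  exact algebraMap_mem_ic K (t3_mem_Rb _ _)

/-- The coordinate ring of the chart `ℓ 0 ≠ 0` is contained in the Kummer field. -/
theorem t3_poly [CharZero k] [IsAlgClosed k] (hn : 0 < n) (hK : IsEtaleCover C n K) (hw : T3W C n K w)
    (Rg : Subalgebra k K) (hR1 : w 1 ∈ Rg) (hR2 : w 2 ∈ Rg) :
    ∀ N : ℕ, ∀ f ∈ ic K (Rb (C.ℓ 0)), (w 1)⁻¹ ^ N * f ∈ ic K (Rb (C.ℓ 1)) → f ∈ Rg := by
  have := hK.finite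
  have hc : CharZero K := charZero_of_injective_algebraMap (algebraMap k K).injective
  obtain ⟨D1, h11, h12⟩ := t3_exD hn hw 1 0
  obtain ⟨D2, h21, h22⟩ := t3_exD hn hw 0 1
  have hw1 := hw.ne 1
  have hw2 := hw.ne 2
  have a1 : w 1 ∈ ic K (Rb (C.ℓ 0)) := by
    have := t3_wmem hn hw 0 1
    rwa [hw.zero, div_one] at this
  have a2 : w 2 ∈ ic K (Rb (C.ℓ 0)) := by
    have := t3_wmem hn hw 0 2
    rwa [hw.zero, div_one] at this
  have b1 : (w 1)⁻¹ ∈ ic K (Rb (C.ℓ 1)) := by
    have := t3_wmem hn hw 1 0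
    rwa [hw.zero, one_div] at this
  have b2 : w 2 / w 1 ∈ ic K (Rb (C.ℓ 1)) := t3_wmem hn hw 1 2
  have inv1 : ∀ D : Derivation k K K, D (w 0 / w 1) = - (D (w 1)) / w 1 ^ 2 := by
    intro D
    rw [hw.zero, one_div, D.leibniz_inv, smul_eq_mul]
    field_simp
  have quo : ∀ D : Derivation k K K, D (w 2 / w 1) = (D (w 2) * w 1 - w 2 * D (w 1)) / w 1 ^ 2 := by
    intro D
    rw [D.leibniz_div]
    simp only [smul_eq_mul]
    field_simp
  -- the derivations on the chart `0`
  have p01 : ∀ y ∈ ic K (Rb (C.ℓ 0)), D1 y ∈ ic K (Rb (C.ℓ 0)) := by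
    refine t3_der hn hK hw (i := 0) (j := 1) (h := 2) (by decide) (by decide) (by decide) D1 ?_ ?_
    · rw [hw.zero, div_one, h11]; exact one_mem _
    · rw [hw.zero, div_one, h12]; exact zero_mem _
  have p02 : ∀ y ∈ ic K (Rb (C.ℓ 0)), D2 y ∈ ic K (Rb (C.ℓ 0)) := by
    refine t3_der hn hK hw (i := 0) (j := 1) (h := 2) (by decide) (by decide) (by decide) D2 ?_ ?_
    · rw [hw.zero, div_one, h21]; exact zero_mem _
    · rw [hw.zero, div_one, h22]; exact one_mem _
  -- the derivations on the chart `1`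
  have p11 : ∀ y ∈ ic K (Rb (C.ℓ 1)), (w 1 • D1) y ∈ ic K (Rb (C.ℓ 1)) := by
    refine t3_der hn hK hw (i := 1) (j := 0) (h := 2) (by decide) (by decide) (by decide) (w 1 • D1) ?_ ?_
    · rw [Derivation.smul_apply, inv1, h11, smul_eq_mul]
      have : w 1 * (-1 / w 1 ^ 2) = - (w 1)⁻¹ := by field_simp
      rw [this]
      exact neg_mem b1
    · rw [Derivation.smul_apply, quo, h11, h12, smul_eq_mul]
      have : w 1 * ((0 * w 1 - w 2 * 1) / w 1 ^ 2) = - (w 2 / w 1) := by field_simp; ring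
      rw [this]
      exact neg_mem b2
  have p12 : ∀ y ∈ ic K (Rb (C.ℓ 1)), (w 1 • D2) y ∈ ic K (Rb (C.ℓ 1)) := by
    refine t3_der hn hK hw (i := 1) (j := 0) (h := 2) (by decide) (by decide) (by decide) (w 1 • D2) ?_ ?_
    · rw [Derivation.smul_apply, inv1, h21, smul_eq_mul]
      have : w 1 * (-0 / w 1 ^ 2) = 0 := by simp
      rw [this]
      exact zero_mem _
    · rw [Derivation.smul_apply, quo, h21, h22, smul_eq_mul]
      have : w 1 * ((1 * w 1 - w 2 * 0) / w 1 ^ 2) = 1 := by field_simp; ring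
      rw [this]
      exact one_mem _
  have p13 : ∀ y ∈ ic K (Rb (C.ℓ 1)), (w 1 • (w 1 • D1 + w 2 • D2)) y ∈ ic K (Rb (C.ℓ 1)) := by
    refine t3_der hn hK hw (i := 1) (j := 0) (h := 2) (by decide) (by decide) (by decide)
      (w 1 • (w 1 • D1 + w 2 • D2)) ?_ ?_
    · rw [inv1]
      simp only [Derivation.smul_apply, Derivation.add_apply, h11, h21, smul_eq_mul]
      have : -(w 1 * (w 1 * 1 + w 2 * 0)) / w 1 ^ 2 = - 1 := by field_simp; ring
      rw [this]
      exact neg_mem (one_mem _)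
    · rw [quo]
      simp only [Derivation.smul_apply, Derivation.add_apply, h11, h12, h21, h22, smul_eq_mul]
      have : (w 1 * (w 1 * 0 + w 2 * 1) * w 1 - w 2 * (w 1 * (w 1 * 1 + w 2 * 0))) / w 1 ^ 2 = 0 := by
        ring
      rw [this]
      exact zero_mem _
  -- powers
  have pw : ∀ (D : Derivation k K K) (M : ℕ), D ((w 1)⁻¹ ^ (M + 1)) = - ((M + 1 : ℕ) : K) * (w 1)⁻¹ ^ (M + 2) * D (w 1) := by
    intro D M
    rw [D.leibniz_pow, D.leibniz_inv]
    simp only [smul_eq_mul, nsmul_eq_mul, Nat.add_sub_cancel]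
    ring
  have hwv : w 1 * (w 1)⁻¹ = 1 := mul_inv_cancel₀ hw1
  generalize (w 1)⁻¹ = v at pw hwv b1 ⊢
  intro N
  induction N with
  | zero =>
    intro f hf hf1
    rw [pow_zero, one_mul] at hf1
    obtain ⟨c, hc⟩ := gr_const (k := k) tUnif all_curve all_const f (fun O hO => by
      rcases t3_two C (i := 0) (j := 1) (by decide) hO with h | h
      · exact ic_mono K h hf
      · exact ic_mono K h hf1)
    rw [hc]
    exact Rg.algebraMap_mem c
  | succ M ih =>
    intro f hf hf1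
    set a := v ^ (M + 1) * f with ha
    have hM : ((M + 1 : ℕ) : K) ∈ ic K (Rb (C.ℓ 1)) := natCast_mem _ _
    have hM0 : ((M + 1 : ℕ) : K) ∈ ic K (Rb (C.ℓ 0)) := natCast_mem _ _
    have e1 : v ^ M * D1 f = (w 1 • D1) a + ((M + 1 : ℕ) : K) * a := by
      rw [Derivation.smul_apply, ha, D1.leibniz, pw, h11]
      simp only [smul_eq_mul]
      linear_combination (-(v ^ M * D1 f) + ((M + 1 : ℕ) : K) * v ^ (M + 1) * f) * hwv
    have e2 : v ^ M * D2 f = (w 1 • D2) a := by
      rw [Derivation.smul_apply, ha, D2.leibniz, pw, h21]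
      simp only [smul_eq_mul]
      linear_combination (-(v ^ M * D2 f)) * hwv
    set g := w 1 * D1 f + w 2 * D2 f - ((M + 1 : ℕ) : K) * f with hg
    have e3 : v ^ M * g = (w 1 • (w 1 • D1 + w 2 • D2)) a := by
      simp only [Derivation.smul_apply, Derivation.add_apply]
      rw [ha, D2.leibniz, D1.leibniz, pw, pw, h21, h11, hg]
      simp only [smul_eq_mul]
      linear_combination (-(v ^ M * w 1 * D1 f + v ^ M * w 2 * D2 f -
        ((M + 1 : ℕ) : K) * v ^ M * f * (w 1 * v + 1))) * hwv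
    have r1 : D1 f ∈ Rg := ih _ (p01 f hf) (by rw [e1]; exact add_mem (p11 a hf1) (mul_mem hM hf1))
    have r2 : D2 f ∈ Rg := ih _ (p02 f hf) (by rw [e2]; exact p12 a hf1)
    have r3 : g ∈ Rg := ih _
      (sub_mem (add_mem (mul_mem a1 (p01 f hf)) (mul_mem a2 (p02 f hf))) (mul_mem hM0 hf))
      (by rw [e3]; exact p13 a hf1)
    have hne : ((M + 1 : ℕ) : k) ≠ 0 := Nat.cast_ne_zero.2 (Nat.succ_ne_zero M)
    have hff : f = algebraMap k K (((M + 1 : ℕ) : k)⁻¹) * (w 1 * D1 f + w 2 * D2 f - g) := by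
      have h1 : w 1 * D1 f + w 2 * D2 f - g = ((M + 1 : ℕ) : K) * f := by rw [hg]; ring
      rw [h1, ← map_natCast (algebraMap k K) (M + 1), ← mul_assoc, ← map_mul, inv_mul_cancel₀ hne, map_one, one_mul]
    rw [hff]
    exact Rg.mul_mem (Rg.algebraMap_mem _) (Rg.sub_mem (Rg.add_mem (Rg.mul_mem hR1 r1) (Rg.mul_mem hR2 r2)) r3)

/-- Every element of `K` is in the Kummer field. -/
theorem t3_top [CharZero k] [IsAlgClosed k] (hn : 0 < n) (hK : IsEtaleCover C n K) (hw : T3W C n K w) (y : K) :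
    y ∈ Kummer K C n := by
  have hfin := hK.finite
  have hwK : ∀ c : Fin 3, w c ∈ Kummer K C n := by
    intro c
    refine Subfield.subset_closure (Or.inr ⟨c, 0, ?_⟩)
    have := hw.pow 0 c
    rwa [hw.zero, div_one] at this
  let Rg : Subalgebra k K := Subalgebra.mk (Kummer K C n).toSubring.toSubsemiring (fun c => by
    rw [IsScalarTower.algebraMap_apply k (F k) K]
    exact Subfield.subset_closure (Or.inl ⟨_, rfl⟩))
  have hA : ∀ f ∈ ic K (Rb (C.ℓ 0)), f ∈ Kummer K C n := by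
    intro f hf
    obtain ⟨m, hm⟩ := overlap_denom (K := K) (t3_mem_Rb (C.ℓ 1) (C.ℓ 0))
      (t3_denom (t3_ne C 0) (t3_ne C 1)) hf
    refine t3_poly hn hK hw Rg (hwK 1) (hwK 2) (n * m) f hf ?_
    rw [map_pow, ← hw.pow, hw.zero, one_div, ← pow_mul] at hm
    exact hm
  have hfr : IsFractionRing (Rb (C.ℓ 0)) (F k) := by
    refine IsFractionRing.of_field _ _ fun z => ?_
    obtain ⟨h₁, h₂, -, hz⟩ := (isCoord_affine (t3_indep3 C (i := 0) (j := 1) (h := 2)
      (by decide) (by decide) (by decide))).2 z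
    have hmem : ∀ P, cm (ev (C.ℓ 1) / ev (C.ℓ 0)) (ev (C.ℓ 2) / ev (C.ℓ 0)) P ∈ Rb (C.ℓ 0) := by
      intro P
      induction P using MvPolynomial.induction_on with
      | C a => rw [cm, MvPolynomial.aeval_C]; exact Subalgebra.algebraMap_mem _ a
      | add p q hp hq => rw [map_add]; exact add_mem hp hq
      | mul_X p a hp =>
        rw [map_mul]
        refine mul_mem hp ?_
        rw [cm, MvPolynomial.aeval_X]
        fin_cases a
        · exact t3_mem_Rb _ _
        · exact t3_mem_Rb _ _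
    exact ⟨⟨_, hmem h₁⟩, ⟨_, hmem h₂⟩, hz⟩
  have halg : IsAlgebraic (Rb (C.ℓ 0)) y :=
    (IsFractionRing.isAlgebraic_iff (Rb (C.ℓ 0)) (F k) K).2 (Algebra.IsAlgebraic.isAlgebraic y)
  obtain ⟨s, hs0, hs⟩ := halg.exists_integral_multiple
  have hs1 : s • y ∈ Kummer K C n := hA _ hs
  have hs2 : algebraMap (F k) K (s : F k) ∈ Kummer K C n := Subfield.subset_closure (Or.inl ⟨_, rfl⟩)
  have hs3 : algebraMap (F k) K (s : F k) ≠ 0 := by
    rw [Ne, map_eq_zero]
    intro h
    exact hs0 (Subtype.ext h)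
  have hy : y = (s • y) / algebraMap (F k) K (s : F k) := by
    rw [Algebra.smul_def]
    change y = (algebraMap (F k) K (s : F k) * y) / _
    field_simp
  rw [hy]
  exact div_mem hs1 hs2

end

end Pool.Agent.Lib.MP_4318ff_ag
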